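import Mathlib

/-!
# Log-Sobolev constants and Gaussian tilts: definitions

`ℝⁿ` is `Fin n → ℝ`; the Euclidean norm and gradient are written out in coordinates.
-/

set_option autoImplicit false

open MeasureTheory
open scoped ENNReal Pointwise ContDiff

namespace Pool.Agent.R972.LSI

/-- The entropy `Ent_μ[F] = E_μ[F log F] - E_μ[F] log E_μ[F]` of a function `F ≥ 0`
(`0 log 0 = 0`). -/
noncomputable def ent {X : Type*} [MeasurableSpace X] (μ : Measure X) (F : X → ℝ) : ℝ :=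
  (∫ x, F x * Real.log (F x) ∂μ) - (∫ x, F x ∂μ) * Real.log (∫ x, F x ∂μ)

/-- `|∇ f (x)|²`, the sum of the squares of the partial derivatives. -/
noncomputable def gradSq {n : ℕ} (f : (Fin n → ℝ) → ℝ) (x : Fin n → ℝ) : ℝ :=
  ∑ i, (fderiv ℝ f x (Pi.single i 1)) ^ 2

/-- The log-Sobolev constant of a measure `μ` on `ℝⁿ`: the infimum of all `C ∈ [0,∞]` with
`Ent_μ[f²] ≤ C E_μ |∇ f|²` for all smooth functions `f`. (It is only used for compactly supported
probability measures, for which all these integrals are finite.) -/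
noncomputable def lsiConst {n : ℕ} (μ : Measure (Fin n → ℝ)) : ℝ≥0∞ :=
  sInf {C : ℝ≥0∞ | ∀ f : (Fin n → ℝ) → ℝ, ContDiff ℝ ∞ f →
    ENNReal.ofReal (ent μ fun x => f x ^ 2) ≤ C * ∫⁻ x, ENNReal.ofReal (gradSq f x) ∂μ}

/-- A Borel measure `π` on `ℝⁿ` is logconcave if `π(tA + (1-t)B) ≥ π(A)^t π(B)^(1-t)` for all
nonempty compact sets `A, B` and all `t ∈ [0,1]`. -/
def IsLogConcave {n : ℕ} (π : Measure (Fin n → ℝ)) : Prop :=
  ∀ A B : Set (Fin n → ℝ), IsCompact A → IsCompact B → A.Nonempty → B.Nonempty →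
    ∀ t : ℝ, 0 ≤ t → t ≤ 1 → π A ^ t * π B ^ (1 - t) ≤ π (t • A + (1 - t) • B)

/-- The Gaussian tilt `π γ_h`: the probability measure whose density with respect to `π` is
proportional to `exp (-|x|² / (2h))`. -/
noncomputable def gaussTilt {n : ℕ} (h : ℝ) (π : Measure (Fin n → ℝ)) : Measure (Fin n → ℝ) :=
  π.tilted fun x => -(∑ i, x i ^ 2) / (2 * h)

end Pool.Agent.R972.LSI
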