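import Pool.Agent.R972.LSI.Defs

set_option autoImplicit false

open MeasureTheory
open scoped ENNReal

namespace Pool.Agent.R972.LSI

/-- `T log t + T - t ≤ T log T` -/
lemma log_tangent {T t : ℝ} (hT : 0 ≤ T) (ht : 0 < t) :
    T * Real.log t + T - t ≤ T * Real.log T := by
  rcases hT.eq_or_lt with rfl | hT
  · simp; exact ht.le
  · have h := Real.log_le_sub_one_of_pos (div_pos ht hT)
    rw [Real.log_div ht.ne' hT.ne'] at h
    have h2 := mul_le_mul_of_nonneg_left h hT.le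
    have h3 : T * (t / T - 1) = t - T := by field_simp
    rw [h3] at h2
    nlinarith

/-- integral of the variational expression -/
lemma int4 {X : Type*} [MeasurableSpace X] {μ : Measure X} [IsProbabilityMeasure μ] {A B : X → ℝ}
    (hA : Integrable A μ) (hB : Integrable B μ) (c t : ℝ) :
    ∫ x, (A x - B x * c - B x + t) ∂μ =
      (∫ x, A x ∂μ) - (∫ x, B x ∂μ) * c - (∫ x, B x ∂μ) + t := by
  have h1 : Integrable (fun x => A x - B x * c) μ := hA.sub (hB.mul_const c)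
  have h2 : Integrable (fun x => A x - B x * c - B x) μ := h1.sub hB
  have e1 : ∫ x, (A x - B x * c - B x + t) ∂μ = (∫ x, (A x - B x * c - B x) ∂μ) + ∫ _, t ∂μ :=
    integral_add h2 (integrable_const t)
  have e2 : ∫ x, (A x - B x * c - B x) ∂μ = (∫ x, (A x - B x * c) ∂μ) - ∫ x, B x ∂μ :=
    integral_sub h1 hB
  have e3 : ∫ x, (A x - B x * c) ∂μ = (∫ x, A x ∂μ) - ∫ x, B x * c ∂μ :=
    integral_sub hA (hB.mul_const c)
  rw [e1, e2, e3, integral_mul_const]
  simp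

/-- variational upper bound for the entropy -/
lemma ent_le {X : Type*} [MeasurableSpace X] {μ : Measure X} [IsProbabilityMeasure μ] {F : X → ℝ}
    (h0 : ∀ x, 0 ≤ F x) (hF : Integrable F μ) (hFl : Integrable (fun x => F x * Real.log (F x)) μ)
    {t : ℝ} (ht : 0 < t) :
    ent μ F ≤ ∫ x, (F x * Real.log (F x) - F x * Real.log t - F x + t) ∂μ := by
  have e : ∫ x, (F x * Real.log (F x) - F x * Real.log t - F x + t) ∂μ =
      (∫ x, F x * Real.log (F x) ∂μ) - (∫ x, F x ∂μ) * Real.log t - (∫ x, F x ∂μ) + t :=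
    int4 hFl hF _ _
  rw [e, ent]
  have := log_tangent (integral_nonneg h0 : 0 ≤ ∫ x, F x ∂μ) ht
  linarith

/-- `2 y² log y - y² + 1 ≥ (y-1)²` scaled -/
lemma log_lower {F T : ℝ} (hF : 0 ≤ F) (hT : 0 < T) :
    (Real.sqrt F - Real.sqrt T) ^ 2 ≤ F * Real.log F - F * Real.log T - F + T := by
  rcases hF.eq_or_lt with rfl | hF
  · simp [Real.sq_sqrt hT.le]
  · set u := Real.sqrt F with hu
    set v := Real.sqrt T with hv
    have hu0 : 0 < u := Real.sqrt_pos.2 hF
    have hv0 : 0 < v := Real.sqrt_pos.2 hT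
    have hFu : F = u ^ 2 := (Real.sq_sqrt hF.le).symm
    have hTv : T = v ^ 2 := (Real.sq_sqrt hT.le).symm
    rw [hFu, hTv, Real.log_pow, Real.log_pow]
    have h := Real.log_le_sub_one_of_pos (div_pos hv0 hu0)
    rw [Real.log_div hv0.ne' hu0.ne'] at h
    have h2 := mul_le_mul_of_nonneg_left h (sq_nonneg u)
    have h3 : u ^ 2 * (v / u - 1) = u * v - u ^ 2 := by field_simp
    rw [h3] at h2
    push_cast
    nlinarith

/-- lower bound for the entropy -/
lemma ent_ge {X : Type*} [MeasurableSpace X] {μ : Measure X} [IsProbabilityMeasure μ] {F : X → ℝ}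
    (h0 : ∀ x, 0 ≤ F x) (hF : Integrable F μ) (hFl : Integrable (fun x => F x * Real.log (F x)) μ)
    (hpos : 0 < ∫ x, F x ∂μ)
    (hint : Integrable (fun x => (Real.sqrt (F x) - Real.sqrt (∫ x, F x ∂μ)) ^ 2) μ) :
    ∫ x, (Real.sqrt (F x) - Real.sqrt (∫ x, F x ∂μ)) ^ 2 ∂μ ≤ ent μ F := by
  set T := ∫ x, F x ∂μ with hT
  have e : ∫ x, (F x * Real.log (F x) - F x * Real.log T - F x + T) ∂μ =
      (∫ x, F x * Real.log (F x) ∂μ) - T * Real.log T := by
    rw [int4 hFl hF, ← hT]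
    ring
  have e2 : ent μ F = (∫ x, F x * Real.log (F x) ∂μ) - T * Real.log T := by rw [ent, ← hT]
  rw [e2, ← e]
  refine integral_mono hint ?_ fun x => log_lower (h0 x) hpos
  exact ((hFl.sub (hF.mul_const _)).sub hF).add (integrable_const _)

/-- the pointwise inequality behind the Hardy-type log-Sobolev inequality -/
lemma pointwise_bound {a b : ℝ} (ha : a ^ 2 ≤ 1) :
    (a + b) ^ 2 * Real.log ((a + b) ^ 2) - (a + b) ^ 2 + 1 ≤
      15 * b ^ 2 + 3 * (1 - a ^ 2) + 4 * b ^ 2 * Real.log (max 1 (b ^ 2)) := by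
  have hl0 : 0 ≤ Real.log (max 1 (b ^ 2)) := Real.log_nonneg (le_max_left _ _)
  have hx0 : 0 ≤ (a + b) ^ 2 := sq_nonneg _
  rcases le_or_gt (b ^ 2) 1 with hb | hb
  · have h1 : (a + b) ^ 2 * Real.log ((a + b) ^ 2) - (a + b) ^ 2 + 1 ≤ ((a + b) ^ 2 - 1) ^ 2 := by
      rcases hx0.eq_or_lt with h | h
      · rw [← h]; simp
      · have := mul_le_mul_of_nonneg_left (Real.log_le_sub_one_of_pos h) hx0
        nlinarith
    have h2 : ((a + b) ^ 2 - 1) ^ 2 ≤ 15 * b ^ 2 + 3 * (1 - a ^ 2) := by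
      have e : (a + b) ^ 2 - 1 = 2 * a * b + b ^ 2 - (1 - a ^ 2) := by ring
      rw [e]
      have h3 : (2 * a * b + b ^ 2 - (1 - a ^ 2)) ^ 2 ≤
          3 * ((2 * a * b) ^ 2 + (b ^ 2) ^ 2 + (1 - a ^ 2) ^ 2) := by
        nlinarith [sq_nonneg (2 * a * b - b ^ 2), sq_nonneg (2 * a * b + (1 - a ^ 2)),
          sq_nonneg (b ^ 2 + (1 - a ^ 2))]
      have h4 : (2 * a * b) ^ 2 ≤ 4 * b ^ 2 := by nlinarith [sq_nonneg b, sq_nonneg a]
      have h5 : (b ^ 2) ^ 2 ≤ b ^ 2 := by nlinarith [sq_nonneg b]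
      have h6 : (1 - a ^ 2) ^ 2 ≤ 1 - a ^ 2 := by nlinarith [sq_nonneg a]
      linarith
    nlinarith [mul_nonneg (mul_nonneg (by norm_num : (0:ℝ) ≤ 4) (sq_nonneg b)) hl0]
  · have hmax : max 1 (b ^ 2) = b ^ 2 := max_eq_right hb.le
    rw [hmax]
    have hxb : (a + b) ^ 2 ≤ 4 * b ^ 2 := by
      nlinarith [sq_nonneg (a - b), sq_nonneg (a + b)]
    have h1 : (a + b) ^ 2 * Real.log ((a + b) ^ 2) ≤ 4 * b ^ 2 * Real.log (4 * b ^ 2) := by
      have hl4 : 0 ≤ Real.log (4 * b ^ 2) := Real.log_nonneg (by linarith)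
      rcases hx0.eq_or_lt with h | h
      · rw [← h]; simp only [zero_mul]; positivity
      · calc (a + b) ^ 2 * Real.log ((a + b) ^ 2) ≤ (a + b) ^ 2 * Real.log (4 * b ^ 2) := by
              gcongr
          _ ≤ _ := by gcongr
    have h2 : Real.log (4 * b ^ 2) = Real.log 4 + Real.log (b ^ 2) := by
      rw [Real.log_mul (by norm_num) (by positivity)]
    have h3 : Real.log 4 ≤ 1.4 := by
      have : Real.log 4 = 2 * Real.log 2 := by
        rw [show (4:ℝ) = 2 ^ 2 by norm_num, Real.log_pow]; norm_num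
      rw [this]
      have := Real.log_two_lt_d9
      linarith
    rw [h2] at h1
    nlinarith [sq_nonneg b, sq_nonneg a]

end Pool.Agent.R972.LSI
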