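import Pool.Agent.R972.LSI.Hardy
import Pool.Agent.TH264.MP.PL

set_option autoImplicit false

open MeasureTheory
open scoped ENNReal Pointwise ContDiff

namespace Pool.Agent.R972.LSI

/-- a measure with a log-concave density is log-concave -/
theorem isLogConcave_withDensity {n : ℕ} {φ : (Fin n → ℝ) → ℝ≥0∞} (hφ : Measurable φ)
    (hlc : ∀ t : ℝ, 0 < t → t < 1 → ∀ x y, φ x ^ t * φ y ^ (1 - t) ≤ φ (t • x + (1 - t) • y)) :
    IsLogConcave (volume.withDensity φ) := by
  intro A B hA hB hAn hBn t ht0 ht1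
  have hAm : MeasurableSet A := hA.measurableSet
  have hBm : MeasurableSet B := hB.measurableSet
  have hC : IsCompact (t • A + (1 - t) • B) := (hA.smul t).add (hB.smul (1 - t))
  have hCm : MeasurableSet (t • A + (1 - t) • B) := hC.measurableSet
  rcases ht0.eq_or_lt with rfl | ht0
  · have : (0:ℝ) • A + (1 - 0 : ℝ) • B = B := by
      rw [sub_zero, one_smul, Set.zero_smul_set hAn, zero_add]
    rw [this]; simp
  rcases ht1.eq_or_lt with rfl | ht1
  · have : (1:ℝ) • A + (1 - 1 : ℝ) • B = A := by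
      rw [sub_self, one_smul, Set.zero_smul_set hBn, add_zero]
    rw [this]; simp
  rw [withDensity_apply _ hAm, withDensity_apply _ hBm, withDensity_apply _ hCm,
    ← lintegral_indicator hAm, ← lintegral_indicator hBm, ← lintegral_indicator hCm]
  refine Pool.Agent.TH264.MP.pl n t ht0 ht1 _ _ _ (hφ.indicator hAm) (hφ.indicator hBm)
    (hφ.indicator hCm) fun x y => ?_
  by_cases hx : x ∈ A
  · by_cases hy : y ∈ B
    · have hz : t • x + (1 - t) • y ∈ t • A + (1 - t) • B :=
        Set.add_mem_add (Set.smul_mem_smul_set hx) (Set.smul_mem_smul_set hy)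
      rw [Set.indicator_of_mem hx, Set.indicator_of_mem hy, Set.indicator_of_mem hz]
      exact hlc t ht0 ht1 x y
    · rw [Set.indicator_of_notMem hy, ENNReal.zero_rpow_of_pos (by linarith)]; simp
  · rw [Set.indicator_of_notMem hx, ENNReal.zero_rpow_of_pos ht0]; simp

lemma withDensity_map {X Y : Type*} [MeasurableSpace X] [MeasurableSpace Y] {μ : Measure X}
    {T : X → Y} (hT : Measurable T) {g : Y → ℝ≥0∞} (hg : Measurable g) :
    (μ.map T).withDensity g = (μ.withDensity (g ∘ T)).map T := by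
  ext s hs
  rw [withDensity_apply _ hs, setLIntegral_map hs hg hT, Measure.map_apply hT hs,
    withDensity_apply _ (hT hs)]
  rfl

lemma tilted_map {X Y : Type*} [MeasurableSpace X] [MeasurableSpace Y] {μ : Measure X}
    {T : X → Y} (hT : Measurable T) {g : Y → ℝ} (hg : Measurable g) :
    (μ.map T).tilted g = (μ.tilted (g ∘ T)).map T := by
  rw [Measure.tilted, Measure.tilted, withDensity_map hT (by fun_prop)]
  congr 2
  funext x
  have e : ∫ y, Real.exp (g y) ∂(μ.map T) = ∫ x, Real.exp (g (T x)) ∂μ :=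
    integral_map hT.aemeasurable (by fun_prop : Measurable fun y =>
      Real.exp (g y)).aestronglyMeasurable
  simp only [Function.comp_apply]
  rw [e]

lemma ent_map {X Y : Type*} [MeasurableSpace X] [MeasurableSpace Y] {μ : Measure X}
    {T : X → Y} (hT : Measurable T) {F : Y → ℝ} (hF : Measurable F) :
    ent (μ.map T) F = ent μ (F ∘ T) := by
  have e1 : ∫ y, F y * Real.log (F y) ∂(μ.map T) = ∫ x, F (T x) * Real.log (F (T x)) ∂μ :=
    integral_map hT.aemeasurable (by fun_prop : Measurable fun y =>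
      F y * Real.log (F y)).aestronglyMeasurable
  have e2 : ∫ y, F y ∂(μ.map T) = ∫ x, F (T x) ∂μ :=
    integral_map hT.aemeasurable hF.aestronglyMeasurable
  rw [ent, ent, e1, e2]
  rfl

/-- an upper bound for the log-Sobolev constant -/
lemma lsiConst_le {n : ℕ} {μ : Measure (Fin n → ℝ)} [IsProbabilityMeasure μ]
    {K : Set (Fin n → ℝ)} (hK : IsCompact K) (hμ : μ Kᶜ = 0) {C : ℝ} (hC : 0 ≤ C)
    (h : ∀ f : (Fin n → ℝ) → ℝ, ContDiff ℝ ∞ f →
      ent μ (fun x => f x ^ 2) ≤ C * ∫ x, gradSq f x ∂μ) : lsiConst μ ≤ ENNReal.ofReal C := by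
  apply sInf_le
  intro f hf
  have hc : Continuous (gradSq f) := by
    unfold gradSq
    refine continuous_finsetSum _ fun i _ => ?_
    have : Continuous fun x => fderiv ℝ f x (Pi.single i 1) :=
      (hf.continuous_fderiv (by simp)).clm_apply continuous_const
    exact this.pow 2
  have hi : Integrable (gradSq f) μ := integrable_cont hK hμ hc
  have h0 : ∀ x, 0 ≤ gradSq f x := fun x => Finset.sum_nonneg fun i _ => sq_nonneg _
  rw [← ofReal_integral_eq_lintegral_ofReal hi (Filter.Eventually.of_forall h0),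
    ← ENNReal.ofReal_mul hC]
  exact ENNReal.ofReal_le_ofReal (h f hf)

lemma fderiv_coord {n : ℕ} (i : Fin n) (a : ℝ) (x v : Fin n → ℝ) :
    fderiv ℝ (fun x : Fin n → ℝ => x i + a) x v = v i := by
  have h : HasFDerivAt (fun x : Fin n → ℝ => x i + a)
      (ContinuousLinearMap.proj (R := ℝ) (φ := fun _ : Fin n => ℝ) i) x :=
    (ContinuousLinearMap.proj (R := ℝ) (φ := fun _ : Fin n => ℝ) i).hasFDerivAt.add_const a
  rw [h.fderiv]; rfl

/-- a lower bound for the log-Sobolev constant, from the test function `x ↦ x i + a` -/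
lemma le_lsiConst {n : ℕ} {μ : Measure (Fin n → ℝ)} [IsProbabilityMeasure μ]
    (i : Fin n) (a : ℝ) :
    ENNReal.ofReal (ent μ (fun x => (x i + a) ^ 2)) ≤ lsiConst μ := by
  apply le_sInf
  intro C hC
  have h := hC (fun x => x i + a) (by fun_prop)
  have hg : ∀ x : Fin n → ℝ, gradSq (fun x : Fin n → ℝ => x i + a) x = 1 := by
    intro x
    simp only [gradSq, fderiv_coord]
    rw [Finset.sum_eq_single i]
    · simp
    · intro j _ hj; simp [hj.symm]
    · simp
  simpa [hg] using h

end Pool.Agent.R972.LSI
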