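import Pool.Agent.R972.LSI.OneD

set_option autoImplicit false

open MeasureTheory
open scoped ENNReal

namespace Pool.Agent.R972.LSI

/-- weighted Hardy inequality on `[0, l]` -/
lemma hardy_aux {V h : ℝ → ℝ} {l v : ℝ} (hl : 0 ≤ l) (hv : 0 < v) (hV : ContDiff ℝ 1 V)
    (hV' : ∀ x ∈ Set.Icc 0 l, v ≤ deriv V x) (hh : ContDiff ℝ 1 h) (h0 : h 0 = 0) :
    ∫ x in (0:ℝ)..l, h x ^ 2 * Real.exp (-V x) ≤
      4 / v ^ 2 * ∫ x in (0:ℝ)..l, deriv h x ^ 2 * Real.exp (-V x) := by
  have hVc : Continuous V := hV.continuous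
  have hhc : Continuous h := hh.continuous
  have hVd : Continuous (deriv V) := hV.continuous_deriv le_rfl
  have hhd : Continuous (deriv h) := hh.continuous_deriv le_rfl
  have hc1 : Continuous fun x => 2 * h x * deriv h x * Real.exp (-V x) := by fun_prop
  have hc2 : Continuous fun x => deriv V x * h x ^ 2 * Real.exp (-V x) := by fun_prop
  have hc3 : Continuous fun x => h x ^ 2 * Real.exp (-V x) := by fun_prop
  have hc4 : Continuous fun x => deriv h x ^ 2 * Real.exp (-V x) := by fun_prop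
  have hder : ∀ x, HasDerivAt (fun x => h x ^ 2 * Real.exp (-V x))
      (2 * h x * deriv h x * Real.exp (-V x) - deriv V x * h x ^ 2 * Real.exp (-V x)) x := by
    intro x
    have h1 : HasDerivAt h (deriv h x) x := (hh.differentiable one_ne_zero x).hasDerivAt
    have h2 : HasDerivAt V (deriv V x) x := (hV.differentiable one_ne_zero x).hasDerivAt
    have h3 : HasDerivAt (fun x => h x ^ 2 * Real.exp (-V x)) _ x := (h1.pow 2).mul h2.neg.exp
    refine h3.congr_deriv ?_
    simp only [Pi.pow_apply, Pi.neg_apply, Nat.cast_ofNat, Nat.add_one_sub_one, pow_one]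
    ring
  have hftc : ∫ x in (0:ℝ)..l, (2 * h x * deriv h x * Real.exp (-V x) -
      deriv V x * h x ^ 2 * Real.exp (-V x)) = h l ^ 2 * Real.exp (-V l) - h 0 ^ 2 * Real.exp (-V 0) :=
    intervalIntegral.integral_eq_sub_of_hasDerivAt (fun x _ => hder x)
      ((hc1.sub hc2).intervalIntegrable _ _)
  have hsub : ∫ x in (0:ℝ)..l, (2 * h x * deriv h x * Real.exp (-V x) -
      deriv V x * h x ^ 2 * Real.exp (-V x)) = (∫ x in (0:ℝ)..l, 2 * h x * deriv h x * Real.exp (-V x))
      - ∫ x in (0:ℝ)..l, deriv V x * h x ^ 2 * Real.exp (-V x) :=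
    intervalIntegral.integral_sub (hc1.intervalIntegrable _ _) (hc2.intervalIntegrable _ _)
  have h5 : v * ∫ x in (0:ℝ)..l, h x ^ 2 * Real.exp (-V x) ≤
      ∫ x in (0:ℝ)..l, deriv V x * h x ^ 2 * Real.exp (-V x) := by
    rw [← intervalIntegral.integral_const_mul]
    refine intervalIntegral.integral_mono_on hl ((hc3.const_mul v).intervalIntegrable _ _)
      (hc2.intervalIntegrable _ _) fun x hx => ?_
    have := hV' x hx
    have h6 : 0 ≤ h x ^ 2 * Real.exp (-V x) := by positivity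
    nlinarith
  have h6 : ∫ x in (0:ℝ)..l, 2 * h x * deriv h x * Real.exp (-V x) ≤
      v / 2 * (∫ x in (0:ℝ)..l, h x ^ 2 * Real.exp (-V x)) +
      2 / v * ∫ x in (0:ℝ)..l, deriv h x ^ 2 * Real.exp (-V x) := by
    rw [← intervalIntegral.integral_const_mul, ← intervalIntegral.integral_const_mul,
      ← intervalIntegral.integral_add ((hc3.const_mul _).intervalIntegrable _ _)
        ((hc4.const_mul _).intervalIntegrable _ _)]
    refine intervalIntegral.integral_mono_on hl (hc1.intervalIntegrable _ _)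
      (((hc3.const_mul _).add (hc4.const_mul _)).intervalIntegrable _ _) fun x _ => ?_
    have he : 0 < Real.exp (-V x) := Real.exp_pos _
    have h7 : 2 * h x * deriv h x ≤ v / 2 * h x ^ 2 + 2 / v * deriv h x ^ 2 := by
      have : v / 2 * h x ^ 2 + 2 / v * deriv h x ^ 2 - 2 * h x * deriv h x =
          (v * h x - 2 * deriv h x) ^ 2 / (2 * v) := by field_simp; ring
      have h8 : 0 ≤ (v * h x - 2 * deriv h x) ^ 2 / (2 * v) := by positivity
      linarith
    calc 2 * h x * deriv h x * Real.exp (-V x) ≤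
        (v / 2 * h x ^ 2 + 2 / v * deriv h x ^ 2) * Real.exp (-V x) := by gcongr
      _ = _ := by ring
  have h7 : 0 ≤ h l ^ 2 * Real.exp (-V l) := by positivity
  rw [hsub, h0] at hftc
  set I := ∫ x in (0:ℝ)..l, h x ^ 2 * Real.exp (-V x)
  set J := ∫ x in (0:ℝ)..l, deriv h x ^ 2 * Real.exp (-V x)
  have h8 : v * I ≤ v / 2 * I + 2 / v * J := by
    have : (0:ℝ) ^ 2 * Real.exp (-V 0) = 0 := by ring
    linarith
  have h9 : v / 2 * I ≤ 2 / v * J := by linarith
  calc I = 2 / v * (v / 2 * I) := by field_simp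
    _ ≤ 2 / v * (2 / v * J) := by gcongr
    _ = 4 / v ^ 2 * J := by field_simp; ring

/-- sup bound -/
lemma sup_aux {V h : ℝ → ℝ} {l M : ℝ} (hV : ContDiff ℝ 1 V)
    (hM : ∀ x ∈ Set.Icc 0 l, V x ≤ M) (hh : ContDiff ℝ 1 h) (h0 : h 0 = 0) {x : ℝ}
    (hx : x ∈ Set.Icc 0 l) :
    h x ^ 2 ≤ l * Real.exp M * ∫ y in (0:ℝ)..l, deriv h y ^ 2 * Real.exp (-V y) := by
  have hVc : Continuous V := hV.continuous
  have hhd : Continuous (deriv h) := hh.continuous_deriv le_rfl
  have hc4 : Continuous fun x => deriv h x ^ 2 * Real.exp (-V x) := by fun_prop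
  have hftc : ∫ y in (0:ℝ)..x, deriv h y = h x - h 0 :=
    intervalIntegral.integral_eq_sub_of_hasDerivAt
      (fun y _ => (hh.differentiable one_ne_zero y).hasDerivAt) (hhd.intervalIntegrable _ _)
  rw [h0, sub_zero] at hftc
  -- Cauchy-Schwarz
  have hcs : (∫ y in (0:ℝ)..x, deriv h y) ^ 2 ≤ x * ∫ y in (0:ℝ)..x, deriv h y ^ 2 := by
    have hq : ∀ t : ℝ, 0 ≤ (∫ y in (0:ℝ)..x, deriv h y ^ 2) - 2 * t * (∫ y in (0:ℝ)..x, deriv h y) +
        t ^ 2 * x := by
      intro t
      have e : ∫ y in (0:ℝ)..x, (deriv h y - t) ^ 2 =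
          (∫ y in (0:ℝ)..x, deriv h y ^ 2) - 2 * t * (∫ y in (0:ℝ)..x, deriv h y) + t ^ 2 * x := by
        have e1 : (fun y => (deriv h y - t) ^ 2) = fun y => deriv h y ^ 2 - 2 * t * deriv h y + t ^ 2 := by
          funext y; ring
        have hc5 : Continuous fun y => deriv h y ^ 2 := by fun_prop
        have hc6 : Continuous fun y => 2 * t * deriv h y := by fun_prop
        have e2 : ∫ y in (0:ℝ)..x, (deriv h y ^ 2 - 2 * t * deriv h y + t ^ 2) =
            (∫ y in (0:ℝ)..x, (deriv h y ^ 2 - 2 * t * deriv h y)) + ∫ _ in (0:ℝ)..x, t ^ 2 :=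
          intervalIntegral.integral_add ((hc5.sub hc6).intervalIntegrable _ _) (by simp)
        have e3 : ∫ y in (0:ℝ)..x, (deriv h y ^ 2 - 2 * t * deriv h y) =
            (∫ y in (0:ℝ)..x, deriv h y ^ 2) - ∫ y in (0:ℝ)..x, 2 * t * deriv h y :=
          intervalIntegral.integral_sub (hc5.intervalIntegrable _ _) (hc6.intervalIntegrable _ _)
        have e4 : ∫ y in (0:ℝ)..x, 2 * t * deriv h y = 2 * t * ∫ y in (0:ℝ)..x, deriv h y :=
          intervalIntegral.integral_const_mul _ _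
        have e5 : ∫ _ in (0:ℝ)..x, t ^ 2 = t ^ 2 * x := by simp; ring
        rw [e1, e2, e3, e4, e5]
      rw [← e]
      exact intervalIntegral.integral_nonneg hx.1 fun y _ => sq_nonneg _
    rcases hx.1.eq_or_lt with h00 | hx0
    · rw [← h00]; simp
    · have := hq ((∫ y in (0:ℝ)..x, deriv h y) / x)
      set A := ∫ y in (0:ℝ)..x, deriv h y
      set B := ∫ y in (0:ℝ)..x, deriv h y ^ 2
      have e : B - 2 * (A / x) * A + (A / x) ^ 2 * x = (x * B - A ^ 2) / x := by
        field_simp; ring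
      rw [e] at this
      have h2 : 0 ≤ x * B - A ^ 2 := by
        by_contra hneg
        push Not at hneg
        have := div_neg_of_neg_of_pos hneg hx0
        linarith
      linarith
  have hl : 0 ≤ l := hx.1.trans hx.2
  have h2 : ∫ y in (0:ℝ)..x, deriv h y ^ 2 ≤ ∫ y in (0:ℝ)..l, deriv h y ^ 2 := by
    apply intervalIntegral.integral_mono_interval le_rfl hx.1 hx.2
    · exact Filter.Eventually.of_forall fun y => sq_nonneg _
    · exact (hhd.pow 2).intervalIntegrable _ _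
  have h3 : ∫ y in (0:ℝ)..l, deriv h y ^ 2 ≤
      Real.exp M * ∫ y in (0:ℝ)..l, deriv h y ^ 2 * Real.exp (-V y) := by
    rw [← intervalIntegral.integral_const_mul]
    refine intervalIntegral.integral_mono_on hl ((hhd.pow 2).intervalIntegrable _ _)
      ((hc4.const_mul _).intervalIntegrable _ _) fun y hy => ?_
    have h4 : 1 ≤ Real.exp M * Real.exp (-V y) := by
      rw [← Real.exp_add]; apply Real.one_le_exp; linarith [hM y hy]
    nlinarith [sq_nonneg (deriv h y)]
  have h5 : 0 ≤ ∫ y in (0:ℝ)..x, deriv h y ^ 2 :=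
    intervalIntegral.integral_nonneg hx.1 fun y _ => sq_nonneg _
  calc h x ^ 2 = (∫ y in (0:ℝ)..x, deriv h y) ^ 2 := by rw [hftc]
    _ ≤ x * ∫ y in (0:ℝ)..x, deriv h y ^ 2 := hcs
    _ ≤ l * (Real.exp M * ∫ y in (0:ℝ)..l, deriv h y ^ 2 * Real.exp (-V y)) := by
        apply mul_le_mul hx.2 (h2.trans h3) h5 hl
    _ = _ := by ring

/-- the probability measure on `[0, l]` with density proportional to `exp (-V)` -/
noncomputable def gibbs (l : ℝ) (V : ℝ → ℝ) : Measure ℝ :=
  (volume.restrict (Set.Icc 0 l)).tilted fun x => -V x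

lemma gibbs_int {l : ℝ} {V : ℝ → ℝ} (hV : Continuous V) :
    Integrable (fun x => Real.exp (-V x)) (volume.restrict (Set.Icc 0 l)) :=
  (by fun_prop : Continuous fun x => Real.exp (-V x)).integrableOn_Icc

lemma gibbs_prob {l : ℝ} (hl : 0 < l) {V : ℝ → ℝ} (hV : Continuous V) :
    IsProbabilityMeasure (gibbs l V) := by
  have : NeZero (volume.restrict (Set.Icc 0 l)) := ⟨by
    intro h
    have := congrArg (fun μ => μ Set.univ) h
    simp at this; linarith⟩
  exact isProbabilityMeasure_tilted (gibbs_int hV)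

lemma gibbs_integral {l : ℝ} (hl : 0 < l) {V : ℝ → ℝ} (g : ℝ → ℝ) :
    ∫ x, g x ∂(gibbs l V) =
      (∫ x in (0:ℝ)..l, g x * Real.exp (-V x)) / ∫ x in (0:ℝ)..l, Real.exp (-V x) := by
  rw [gibbs, integral_tilted, intervalIntegral.integral_of_le hl.le,
    intervalIntegral.integral_of_le hl.le, integral_Icc_eq_integral_Ioc,
    integral_Icc_eq_integral_Ioc, ← integral_div]
  congr 1
  funext x
  simp only [smul_eq_mul]; ring

lemma gibbs_supp {l : ℝ} {V : ℝ → ℝ} : gibbs l V (Set.Icc 0 l)ᶜ = 0 := by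
  apply tilted_absolutelyContinuous
  rw [Measure.restrict_apply measurableSet_Icc.compl]
  simp

lemma gibbs_Z {l : ℝ} (hl : 0 < l) {V : ℝ → ℝ} (hV : Continuous V)
    (h0 : ∀ x ∈ Set.Icc 0 l, 0 ≤ V x) : ∫ x in (0:ℝ)..l, Real.exp (-V x) ≤ l := by
  have : ∫ x in (0:ℝ)..l, Real.exp (-V x) ≤ ∫ x in (0:ℝ)..l, (1:ℝ) := by
    refine intervalIntegral.integral_mono_on hl.le
      ((by fun_prop : Continuous fun x => Real.exp (-V x)).intervalIntegrable _ _) (by simp) ?_
    intro x hx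
    rw [Real.exp_le_one_iff]
    linarith [h0 x hx]
  simpa using this

lemma gibbs_Zpos {l : ℝ} (hl : 0 < l) {V : ℝ → ℝ} (hV : Continuous V) :
    0 < ∫ x in (0:ℝ)..l, Real.exp (-V x) :=
  intervalIntegral.intervalIntegral_pos_of_pos
    ((by fun_prop : Continuous fun x => Real.exp (-V x)).intervalIntegrable _ _)
    (fun x => Real.exp_pos _) hl

theorem gibbs_hardy {V : ℝ → ℝ} {l v M : ℝ} (hl : 0 < l) (hv : 0 < v) (hV : ContDiff ℝ 1 V)
    (hV' : ∀ x ∈ Set.Icc 0 l, v ≤ deriv V x) (h0 : ∀ x ∈ Set.Icc 0 l, 0 ≤ V x)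
    (hM : ∀ x ∈ Set.Icc 0 l, V x ≤ M) :
    Hardy (gibbs l V) 0 l 0 (4 / v ^ 2) (l ^ 2 * Real.exp M) where
  supp := gibbs_supp
  Hpos := by positivity
  Snn := by positivity
  hardy := by
    intro h hh hh0
    rw [gibbs_integral hl, gibbs_integral hl, ← mul_div_assoc]
    exact div_le_div_of_nonneg_right (hardy_aux hl.le hv hV hV' hh hh0)
      (gibbs_Zpos hl hV.continuous).le
  sup := by
    intro h hh hh0 x hx
    rw [gibbs_integral hl]
    have h1 := sup_aux hV hM hh hh0 hx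
    have hZ := gibbs_Z hl hV.continuous h0
    have hZ0 := gibbs_Zpos hl hV.continuous
    have hJ : 0 ≤ ∫ y in (0:ℝ)..l, deriv h y ^ 2 * Real.exp (-V y) :=
      intervalIntegral.integral_nonneg hl.le fun y _ => by positivity
    refine h1.trans ?_
    set J := ∫ y in (0:ℝ)..l, deriv h y ^ 2 * Real.exp (-V y)
    set Z := ∫ x in (0:ℝ)..l, Real.exp (-V x)
    have h2 : J ≤ l * (J / Z) := by
      rw [← mul_div_assoc, le_div_iff₀ hZ0]; nlinarith
    calc l * Real.exp M * J ≤ l * Real.exp M * (l * (J / Z)) := by gcongr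
      _ = _ := by ring

end Pool.Agent.R972.LSI
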