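import Pool.Agent.R972.LSI.Gen

set_option autoImplicit false

open MeasureTheory
open scoped ENNReal Pointwise ContDiff

namespace Pool.Agent.R972.LSI

/-- the shift map to `Fin 1 → ℝ` -/
def T1 (v : ℝ) (x : ℝ) : Fin 1 → ℝ := fun _ => x - v

lemma T1_meas (v : ℝ) : Measurable (T1 v) := by unfold T1; fun_prop

lemma T1_mp (v : ℝ) : MeasurePreserving (T1 v) volume volume := by
  have h1 : MeasurePreserving (fun x : ℝ => x - v) volume volume :=
    measurePreserving_sub_right volume v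
  have h2 := (volume_preserving_funUnique (Fin 1) ℝ).symm.comp h1
  exact h2

/-- the measure -/
noncomputable def pi1 (v : ℝ) : Measure (Fin 1 → ℝ) := (gibbs 1 fun x => v * x).map (T1 v)

instance pi1_prob (v : ℝ) : IsProbabilityMeasure (pi1 v) := by
  have := gibbs_prob one_pos (V := fun x => v * x) (by fun_prop)
  exact Measure.isProbabilityMeasure_map (T1_meas v).aemeasurable

/-- the compact support -/
def K1 (v : ℝ) : Set (Fin 1 → ℝ) := Set.Icc (fun _ => -v) (fun _ => 1 - v)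

lemma K1_compact (v : ℝ) : IsCompact (K1 v) := isCompact_Icc

lemma T1_pre (v : ℝ) : T1 v ⁻¹' K1 v = Set.Icc 0 1 := by
  ext x
  simp only [T1, K1, Set.mem_preimage, Set.mem_Icc, Pi.le_def]
  constructor
  · rintro ⟨h1, h2⟩
    have := h1 0; have := h2 0
    constructor <;> linarith
  · rintro ⟨h1, h2⟩
    constructor <;> intro _ <;> linarith

lemma pi1_supp (v : ℝ) : pi1 v (K1 v)ᶜ = 0 := by
  rw [pi1, Measure.map_apply (T1_meas v) (show MeasurableSet (K1 v)ᶜ from measurableSet_Icc.compl),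
    Set.preimage_compl, T1_pre]
  exact gibbs_supp

/-- the density of `pi1` -/
noncomputable def phi1 (v : ℝ) : (Fin 1 → ℝ) → ℝ≥0∞ := (K1 v).indicator fun x =>
  ENNReal.ofReal (Real.exp (-(v * (x 0 + v))) / ∫ y in Set.Icc (0:ℝ) 1, Real.exp (-(v * y)))

lemma phi1_meas (v : ℝ) : Measurable (phi1 v) := by
  unfold phi1
  exact Measurable.indicator (by fun_prop) measurableSet_Icc

lemma pi1_density (v : ℝ) : pi1 v = volume.withDensity (phi1 v) := by
  have h1 : (volume : Measure (Fin 1 → ℝ)) = (volume : Measure ℝ).map (T1 v) := (T1_mp v).map_eq.symm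
  rw [h1, withDensity_map (T1_meas v) (phi1_meas v), pi1, gibbs, Measure.tilted]
  congr 1
  have h2 : phi1 v ∘ T1 v = (Set.Icc (0:ℝ) 1).indicator fun x =>
      ENNReal.ofReal (Real.exp (-(v * x)) / ∫ y in Set.Icc (0:ℝ) 1, Real.exp (-(v * y))) := by
    funext x
    have hx : T1 v x ∈ K1 v ↔ x ∈ Set.Icc (0:ℝ) 1 := by rw [← T1_pre v]; rfl
    by_cases h : x ∈ Set.Icc (0:ℝ) 1
    · rw [Function.comp_apply, phi1, Set.indicator_of_mem (hx.2 h), Set.indicator_of_mem h]
      simp [T1]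
    · rw [Function.comp_apply, phi1, Set.indicator_of_notMem (fun h' => h (hx.1 h')),
        Set.indicator_of_notMem h]
  rw [h2, withDensity_indicator measurableSet_Icc]

lemma pi1_lc (v : ℝ) : IsLogConcave (pi1 v) := by
  rw [pi1_density]
  refine isLogConcave_withDensity (phi1_meas v) fun t ht0 ht1 x y => ?_
  set Z := ∫ y in Set.Icc (0:ℝ) 1, Real.exp (-(v * y)) with hZ
  have hZ0 : 0 ≤ Z := integral_nonneg fun x => (Real.exp_pos _).le
  by_cases hx : x ∈ K1 v
  · by_cases hy : y ∈ K1 v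
    · have hz : t • x + (1 - t) • y ∈ K1 v := by
        have hc : Convex ℝ (K1 v) := convex_Icc _ _
        exact hc hx hy ht0.le (by linarith) (by ring)
      rw [phi1, Set.indicator_of_mem hx, Set.indicator_of_mem hy, Set.indicator_of_mem hz]
      simp only [← hZ]
      rcases hZ0.eq_or_lt with h | hZpos
      · rw [← h]; simp [ENNReal.zero_rpow_of_pos ht0]
      rw [ENNReal.ofReal_rpow_of_pos (by positivity), ENNReal.ofReal_rpow_of_pos (by positivity),
        ← ENNReal.ofReal_mul (by positivity)]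
      apply ENNReal.ofReal_le_ofReal
      rw [Real.div_rpow (Real.exp_pos _).le hZ0, Real.div_rpow (Real.exp_pos _).le hZ0,
        div_mul_div_comm, ← Real.rpow_add hZpos, ← Real.exp_mul, ← Real.exp_mul, ← Real.exp_add]
      apply le_of_eq
      have e1 : t + (1 - t) = 1 := by ring
      rw [e1, Real.rpow_one]
      congr 2
      simp only [Pi.add_apply, Pi.smul_apply, smul_eq_mul]
      ring
    · rw [show phi1 v y = 0 from Set.indicator_of_notMem hy _,
        ENNReal.zero_rpow_of_pos (by linarith)]; simp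
  · rw [show phi1 v x = 0 from Set.indicator_of_notMem hx _, ENNReal.zero_rpow_of_pos ht0]; simp

lemma pi1_lsi {v : ℝ} (hv : 2 ≤ v) : lsiConst (pi1 v) ≤ ENNReal.ofReal (76 / v) := by
  have hv0 : 0 < v := by linarith
  have hprob := gibbs_prob one_pos (V := fun x => v * x) (by fun_prop)
  have hH : Hardy (gibbs 1 fun x => v * x) 0 1 0 (4 / v ^ 2) (1 ^ 2 * Real.exp v) := by
    refine gibbs_hardy one_pos hv0 (by fun_prop) ?_ ?_ ?_
    · intro x _
      have : deriv (fun x => v * x) x = v := by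
        rw [deriv_const_mul_field]; simp
      rw [this]
    · intro x hx; exact mul_nonneg hv0.le hx.1
    · intro x hx; nlinarith [hx.2]
  refine lsiConst_le (K1_compact v) (pi1_supp v) (by positivity) fun f hf => ?_
  have hfc : Continuous f := hf.continuous
  have hfd : Differentiable ℝ f := hf.differentiable (by simp)
  have hT : ContDiff ℝ 1 (T1 v) := by
    unfold T1
    exact contDiff_pi.2 fun _ => by fun_prop
  have hT' : ∀ x, HasDerivAt (T1 v) (Pi.single 0 1) x := by
    intro x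
    rw [hasDerivAt_pi]
    intro i
    have : (Pi.single 0 1 : Fin 1 → ℝ) i = 1 := by
      rw [Subsingleton.elim i 0]; simp
    rw [this]
    exact (hasDerivAt_id x).sub_const v
  have h1 := hH.lsi (f ∘ T1 v) ((hf.of_le (by simp)).comp hT)
  rw [pi1, ent_map (T1_meas v) (by fun_prop)]
  have e1 : ∫ x, gradSq f x ∂((gibbs 1 fun x => v * x).map (T1 v)) =
      ∫ x, deriv (f ∘ T1 v) x ^ 2 ∂(gibbs 1 fun x => v * x) := by
    have hc : Continuous (gradSq f) := by
      unfold gradSq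
      refine continuous_finsetSum _ fun i _ => ?_
      have : Continuous fun x => fderiv ℝ f x (Pi.single i 1) :=
        (hf.continuous_fderiv (by simp)).clm_apply continuous_const
      exact this.pow 2
    rw [integral_map (T1_meas v).aemeasurable hc.aestronglyMeasurable]
    congr 1
    funext x
    have : HasDerivAt (f ∘ T1 v) (fderiv ℝ f (T1 v x) (Pi.single 0 1)) x :=
      (hfd (T1 v x)).hasFDerivAt.comp_hasDerivAt x (hT' x)
    rw [this.deriv, gradSq]
    simp
  rw [e1]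
  refine h1.trans ?_
  have hI : 0 ≤ ∫ x, deriv (f ∘ T1 v) x ^ 2 ∂(gibbs 1 fun x => v * x) :=
    integral_nonneg fun x => sq_nonneg _
  refine mul_le_mul_of_nonneg_right ?_ hI
  have e2 : (1 ^ 2 * Real.exp v) / (4 / v ^ 2) = Real.exp v * (v / 2) ^ 2 := by
    field_simp; ring
  rw [e2]
  have h2 : 1 ≤ Real.exp v * (v / 2) ^ 2 := by
    have h3 : 1 ≤ Real.exp v := Real.one_le_exp hv0.le
    have h4 : 1 ≤ (v / 2) ^ 2 := by nlinarith
    nlinarith
  rw [max_eq_right h2, Real.log_mul (Real.exp_pos _).ne' (by positivity), Real.log_exp,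
    Real.log_pow]
  have h5 : Real.log (v / 2) ≤ v / 2 := by
    have := Real.log_le_sub_one_of_pos (show 0 < v / 2 by positivity)
    linarith
  have h6 : 4 / v ^ 2 * (22 + 4 * (v + ((2:ℕ):ℝ) * Real.log (v / 2))) ≤ 4 / v ^ 2 * (19 * v) := by
    apply mul_le_mul_of_nonneg_left _ (by positivity)
    push_cast
    nlinarith
  refine h6.trans (le_of_eq ?_)
  field_simp; ring

/-- the tilted measure -/
lemma pi1_tilt (v : ℝ) : gaussTilt 1 (pi1 v) = (gibbs 1 fun x => x ^ 2 / 2 + v ^ 2 / 2).map (T1 v) := by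
  rw [gaussTilt, pi1, tilted_map (T1_meas v) (by fun_prop), gibbs, gibbs, tilted_tilted]
  · congr 2
    funext x
    simp [T1]; ring
  · exact gibbs_int (by fun_prop)

lemma pi1_tilt_lsi (v : ℝ) : ENNReal.ofReal (1 / 24) ≤ lsiConst (gaussTilt 1 (pi1 v)) := by
  rw [pi1_tilt]
  have hprob := gibbs_prob one_pos (V := fun x => x ^ 2 / 2 + v ^ 2 / 2) (by fun_prop)
  have hprob2 : IsProbabilityMeasure ((gibbs 1 fun x => x ^ 2 / 2 + v ^ 2 / 2).map (T1 v)) :=
    Measure.isProbabilityMeasure_map (T1_meas v).aemeasurable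
  refine le_trans ?_ (le_lsiConst 0 v)
  apply ENNReal.ofReal_le_ofReal
  rw [ent_map (T1_meas v) (by fun_prop)]
  have e : ((fun x : Fin 1 → ℝ => (x 0 + v) ^ 2) ∘ T1 v) = fun x => x ^ 2 := by
    funext x; simp [T1]
  rw [e]
  set μ := gibbs 1 fun x => x ^ 2 / 2 + v ^ 2 / 2 with hμ
  have hK : IsCompact (Set.Icc (0:ℝ) 1) := isCompact_Icc
  have hs : μ (Set.Icc (0:ℝ) 1)ᶜ = 0 := gibbs_supp
  have hZ0 := gibbs_Zpos one_pos (V := fun x => x ^ 2 / 2 + v ^ 2 / 2) (by fun_prop)
  -- lower bound of integrals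
  have hlow : ∀ g : ℝ → ℝ, Continuous g → (∀ x, 0 ≤ g x) →
      (1 / 2) * ∫ x in (0:ℝ)..1, g x ≤ ∫ x, g x ∂μ := by
    intro g hg hg0
    rw [hμ, gibbs_integral one_pos, le_div_iff₀ hZ0]
    set E := Real.exp (-(v ^ 2 / 2)) with hE
    have hE0 : 0 < E := Real.exp_pos _
    have hcg : Continuous fun x => g x * Real.exp (-(x ^ 2 / 2 + v ^ 2 / 2)) := by fun_prop
    have hc1 : Continuous fun x => Real.exp (-(x ^ 2 / 2 + v ^ 2 / 2)) := by fun_prop
    have hZ : ∫ x in (0:ℝ)..1, Real.exp (-(x ^ 2 / 2 + v ^ 2 / 2)) ≤ E := by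
      have : ∫ x in (0:ℝ)..1, Real.exp (-(x ^ 2 / 2 + v ^ 2 / 2)) ≤ ∫ x in (0:ℝ)..1, E := by
        refine intervalIntegral.integral_mono_on zero_le_one (hc1.intervalIntegrable _ _) (by simp)
          fun x _ => ?_
        rw [hE, Real.exp_le_exp]; nlinarith [sq_nonneg x]
      simpa using this
    have hN : (1 / 2) * E * ∫ x in (0:ℝ)..1, g x ≤
        ∫ x in (0:ℝ)..1, g x * Real.exp (-(x ^ 2 / 2 + v ^ 2 / 2)) := by
      rw [← intervalIntegral.integral_const_mul]
      refine intervalIntegral.integral_mono_on zero_le_one ((hg.const_mul _).intervalIntegrable _ _)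
        (hcg.intervalIntegrable _ _) fun x hx => ?_
      have h1 : (1 / 2) * E ≤ Real.exp (-(x ^ 2 / 2 + v ^ 2 / 2)) := by
        have e1 : Real.exp (-(x ^ 2 / 2 + v ^ 2 / 2)) = Real.exp (-(x ^ 2 / 2)) * E := by
          rw [hE, ← Real.exp_add]; congr 1; ring
        rw [e1]
        have h2 : (1 / 2 : ℝ) ≤ Real.exp (-(x ^ 2 / 2)) := by
          have h3 := Real.add_one_le_exp (-(x ^ 2 / 2))
          have h4 : x ^ 2 ≤ 1 := by nlinarith [hx.1, hx.2]
          linarith
        nlinarith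
      nlinarith [hg0 x]
    have hgi : 0 ≤ ∫ x in (0:ℝ)..1, g x :=
      intervalIntegral.integral_nonneg zero_le_one fun x _ => hg0 x
    calc 1 / 2 * (∫ x in (0:ℝ)..1, g x) * ∫ x in (0:ℝ)..1, Real.exp (-(x ^ 2 / 2 + v ^ 2 / 2)) ≤
        1 / 2 * (∫ x in (0:ℝ)..1, g x) * E := by gcongr
      _ = 1 / 2 * E * ∫ x in (0:ℝ)..1, g x := by ring
      _ ≤ _ := hN
  have hpos : 0 < ∫ x, x ^ 2 ∂μ := by
    have h1 := hlow (fun x => x ^ 2) (by fun_prop) (fun x => sq_nonneg x)
    have h2 : ∫ x in (0:ℝ)..1, x ^ 2 = 1 / 3 := by simp; norm_num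
    rw [h2] at h1
    norm_num at h1; linarith
  have hcl : Continuous fun x : ℝ => x ^ 2 * Real.log (x ^ 2) := cont_sq_log continuous_id
  have h1 := ent_ge (μ := μ) (F := fun x : ℝ => x ^ 2) (fun x => sq_nonneg x)
    (integrable_cont hK hs (by fun_prop)) (integrable_cont hK hs hcl) hpos
    (integrable_cont hK hs (by fun_prop))
  refine le_trans ?_ h1
  set c := Real.sqrt (∫ x, x ^ 2 ∂μ)
  have h2 := hlow (fun x => (Real.sqrt (x ^ 2) - c) ^ 2) (by fun_prop) (fun x => sq_nonneg _)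
  refine le_trans ?_ h2
  have h3 : ∫ x in (0:ℝ)..1, (Real.sqrt (x ^ 2) - c) ^ 2 = 1 / 3 - c + c ^ 2 := by
    have e1 : ∫ x in (0:ℝ)..1, (Real.sqrt (x ^ 2) - c) ^ 2 = ∫ x in (0:ℝ)..1, (x - c) ^ 2 := by
      apply intervalIntegral.integral_congr
      intro x hx
      rw [Set.uIcc_of_le zero_le_one] at hx
      simp only [Real.sqrt_sq hx.1]
    rw [e1]
    have hd : ∀ x : ℝ, HasDerivAt (fun x : ℝ => (x - c) ^ 3 / 3) ((x - c) ^ 2) x := by
      intro x
      have := (((hasDerivAt_id x).sub_const c).pow 3).div_const 3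
      refine this.congr_deriv ?_
      simp
    rw [intervalIntegral.integral_eq_sub_of_hasDerivAt (fun x _ => hd x)
      ((by fun_prop : Continuous fun x : ℝ => (x - c) ^ 2).intervalIntegrable _ _)]
    ring
  rw [h3]
  nlinarith [sq_nonneg (c - 1 / 2)]

end Pool.Agent.R972.LSI
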