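import Pool.Agent.R972.LSI.Ent

set_option autoImplicit false

open MeasureTheory
open scoped ENNReal

namespace Pool.Agent.R972.LSI

/-- continuous functions are integrable for compactly supported finite measures -/
lemma integrable_cont {X : Type*} [TopologicalSpace X] [T2Space X] [MeasurableSpace X]
    [OpensMeasurableSpace X] [SecondCountableTopologyEither X ℝ]
    {μ : Measure X} [IsFiniteMeasure μ] {K : Set X} (hK : IsCompact K) (hμ : μ Kᶜ = 0)
    {f : X → ℝ} (hf : Continuous f) : Integrable f μ := by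
  have h : ∀ᵐ x ∂μ, x ∈ K := by
    rw [ae_iff]; exact hμ
  rw [← Measure.restrict_eq_self_of_ae_mem h]
  exact (hf.continuousOn.integrableOn_compact hK)

lemma cont_sq_log {X : Type*} [TopologicalSpace X] {f : X → ℝ} (hf : Continuous f) :
    Continuous fun x => f x ^ 2 * Real.log (f x ^ 2) :=
  Real.continuous_mul_log.comp (hf.pow 2)

/-- Hardy type inequalities for a probability measure on an interval -/
structure Hardy (μ : Measure ℝ) (a b x0 H S : ℝ) : Prop where
  supp : μ (Set.Icc a b)ᶜ = 0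
  Hpos : 0 < H
  Snn : 0 ≤ S
  hardy : ∀ h : ℝ → ℝ, ContDiff ℝ 1 h → h x0 = 0 → ∫ x, h x ^ 2 ∂μ ≤ H * ∫ x, deriv h x ^ 2 ∂μ
  sup : ∀ h : ℝ → ℝ, ContDiff ℝ 1 h → h x0 = 0 → ∀ x ∈ Set.Icc a b,
    h x ^ 2 ≤ S * ∫ x, deriv h x ^ 2 ∂μ

/-- `G log (max 1 (S D / G)) ≤ H D (1 + log (max 1 (S/H)))` if `G ≤ H D` -/
lemma glog {G H D S : ℝ} (hG : 0 < G) (hH : 0 < H) (hD : 0 < D) (hGH : G ≤ H * D) :
    G * Real.log (max 1 (S * D / G)) ≤ H * D * (1 + Real.log (max 1 (S / H))) := by
  have hHD : 0 < H * D := mul_pos hH hD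
  have hr : 1 ≤ H * D / G := by rwa [le_div_iff₀ hG, one_mul]
  have h1 : max 1 (S * D / G) ≤ max 1 (S / H) * (H * D / G) := by
    apply max_le
    · nlinarith [le_max_left 1 (S / H)]
    · have : S * D / G = S / H * (H * D / G) := by field_simp
      rw [this]
      gcongr
      exact le_max_right _ _
  have hm : 0 < max 1 (S / H) := lt_of_lt_of_le one_pos (le_max_left _ _)
  have h2 : Real.log (max 1 (S * D / G)) ≤ Real.log (max 1 (S / H)) + Real.log (H * D / G) := by
    rw [← Real.log_mul hm.ne' (by positivity)]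
    exact Real.log_le_log (lt_of_lt_of_le one_pos (le_max_left _ _)) h1
  have h3 : G * Real.log (H * D / G) ≤ H * D := by
    have := Real.log_le_sub_one_of_pos (show 0 < H * D / G by positivity)
    calc G * Real.log (H * D / G) ≤ G * (H * D / G) := by
          apply mul_le_mul_of_nonneg_left _ hG.le; linarith
      _ = H * D := by field_simp
  have hl : 0 ≤ Real.log (max 1 (S / H)) := Real.log_nonneg (le_max_left _ _)
  calc G * Real.log (max 1 (S * D / G)) ≤ G * (Real.log (max 1 (S / H)) + Real.log (H * D / G)) := by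
        gcongr
    _ = G * Real.log (max 1 (S / H)) + G * Real.log (H * D / G) := by ring
    _ ≤ H * D * Real.log (max 1 (S / H)) + H * D := by gcongr
    _ = _ := by ring

/-- log-Sobolev inequality on the line from Hardy type inequalities -/
theorem Hardy.lsi {μ : Measure ℝ} [IsProbabilityMeasure μ] {a b x0 H S : ℝ}
    (hh : Hardy μ a b x0 H S) (f : ℝ → ℝ) (hf : ContDiff ℝ 1 f) :
    ent μ (fun x => f x ^ 2) ≤
      H * (22 + 4 * Real.log (max 1 (S / H))) * ∫ x, deriv f x ^ 2 ∂μ := by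
  set m := f x0 with hm
  set g : ℝ → ℝ := fun x => f x - m with hg
  have hgC : ContDiff ℝ 1 g := hf.sub contDiff_const
  have hg0 : g x0 = 0 := by simp [hg, hm]
  have hdg : ∀ x, deriv g x = deriv f x := by
    intro x; rw [hg]; simp
  set D := ∫ x, deriv f x ^ 2 ∂μ with hD
  have hDg : ∫ x, deriv g x ^ 2 ∂μ = D := by simp_rw [hdg]; rfl
  have hD0 : 0 ≤ D := integral_nonneg fun x => sq_nonneg _
  set G := ∫ x, g x ^ 2 ∂μ with hG
  have hG0 : 0 ≤ G := integral_nonneg fun x => sq_nonneg _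
  have hGH : G ≤ H * D := by have := hh.hardy g hgC hg0; rwa [hDg] at this
  have hsup : ∀ x ∈ Set.Icc a b, g x ^ 2 ≤ S * D := by
    have := hh.sup g hgC hg0; rwa [hDg] at this
  have hKc : IsCompact (Set.Icc a b) := isCompact_Icc
  have hl0 : 0 ≤ Real.log (max 1 (S / H)) := Real.log_nonneg (le_max_left _ _)
  have hfc : Continuous f := hf.continuous
  have hgc : Continuous g := hgC.continuous
  have hmem : ∀ᵐ x ∂μ, x ∈ Set.Icc a b := by rw [ae_iff]; exact hh.supp
  have hRHS : 0 ≤ H * (22 + 4 * Real.log (max 1 (S / H))) * D := by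
    have := hh.Hpos
    positivity
  rcases hG0.eq_or_lt with hG00 | hGpos
  · -- `g = 0` a.e.
    have hgi : Integrable (fun x => g x ^ 2) μ := integrable_cont hKc hh.supp (hgc.pow 2)
    have hae : (fun x => g x ^ 2) =ᵐ[μ] 0 :=
      (integral_eq_zero_iff_of_nonneg (fun x => sq_nonneg _) hgi).1 hG00.symm
    have hfm : ∀ᵐ x ∂μ, f x = m := by
      filter_upwards [hae] with x hx
      have : g x = 0 := by simpa using hx
      simp only [hg] at this; linarith
    have e1 : ∫ x, f x ^ 2 * Real.log (f x ^ 2) ∂μ = m ^ 2 * Real.log (m ^ 2) := by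
      have : ∫ x, f x ^ 2 * Real.log (f x ^ 2) ∂μ = ∫ _, m ^ 2 * Real.log (m ^ 2) ∂μ := by
        refine integral_congr_ae ?_
        filter_upwards [hfm] with x hx
        rw [hx]
      rw [this]; simp
    have e2 : ∫ x, f x ^ 2 ∂μ = m ^ 2 := by
      have : ∫ x, f x ^ 2 ∂μ = ∫ _, m ^ 2 ∂μ := by
        refine integral_congr_ae ?_
        filter_upwards [hfm] with x hx
        rw [hx]
      rw [this]; simp
    rw [ent, e1, e2]
    simpa using hRHS
  · have hDpos : 0 < D := by
      rcases hD0.eq_or_lt with h | h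
      · rw [← h] at hGH; simp at hGH; linarith
      · exact h
    set t := m ^ 2 + G with ht
    have ht0 : 0 < t := by positivity
    have hFi : Integrable (fun x => f x ^ 2) μ := integrable_cont hKc hh.supp (hfc.pow 2)
    have hFl : Integrable (fun x => f x ^ 2 * Real.log (f x ^ 2)) μ :=
      integrable_cont hKc hh.supp (cont_sq_log hfc)
    have h1 := ent_le (fun x => sq_nonneg (f x)) hFi hFl ht0
    set Λ := Real.log (max 1 (S * D / G)) with hΛ
    have hΛ0 : 0 ≤ Λ := Real.log_nonneg (le_max_left _ _)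
    have h2 : ∀ᵐ x ∂μ, f x ^ 2 * Real.log (f x ^ 2) - f x ^ 2 * Real.log t - f x ^ 2 + t ≤
        15 * g x ^ 2 + 3 * G + 4 * Λ * g x ^ 2 := by
      filter_upwards [hmem] with x hx
      have hst : 0 < Real.sqrt t := Real.sqrt_pos.2 ht0
      have hst2 : Real.sqrt t ^ 2 = t := Real.sq_sqrt ht0.le
      have ha : (m / Real.sqrt t) ^ 2 ≤ 1 := by
        rw [div_pow, hst2, div_le_one ht0]; linarith
      have hp := pointwise_bound (b := g x / Real.sqrt t) ha
      have e1 : m / Real.sqrt t + g x / Real.sqrt t = f x / Real.sqrt t := by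
        rw [← add_div]; congr 1; simp only [hg]; ring
      rw [e1, div_pow, div_pow, div_pow, hst2] at hp
      have hp2 := mul_le_mul_of_nonneg_left hp ht0.le
      have e2 : t * (f x ^ 2 / t * Real.log (f x ^ 2 / t) - f x ^ 2 / t + 1) =
          f x ^ 2 * Real.log (f x ^ 2) - f x ^ 2 * Real.log t - f x ^ 2 + t := by
        by_cases h0 : f x ^ 2 = 0
        · rw [h0]; simp
        · rw [Real.log_div h0 ht0.ne']; field_simp
      have e3 : t * (15 * (g x ^ 2 / t) + 3 * (1 - m ^ 2 / t) +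
          4 * (g x ^ 2 / t) * Real.log (max 1 (g x ^ 2 / t))) =
          15 * g x ^ 2 + 3 * G + 4 * g x ^ 2 * Real.log (max 1 (g x ^ 2 / t)) := by
        have : t - m ^ 2 = G := by rw [ht]; ring
        field_simp
        rw [← this]
      rw [e2, e3] at hp2
      have hgG : g x ^ 2 / t ≤ S * D / G := by
        apply div_le_div₀ (by have := hsup x hx; nlinarith [sq_nonneg (g x)]) (hsup x hx) hGpos
        rw [ht]; nlinarith [sq_nonneg m]
      have h5 : Real.log (max 1 (g x ^ 2 / t)) ≤ Λ :=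
        Real.log_le_log (lt_of_lt_of_le one_pos (le_max_left _ _)) (max_le_max le_rfl hgG)
      nlinarith [mul_le_mul_of_nonneg_left h5 (sq_nonneg (g x))]
    have hgi : Integrable (fun x => g x ^ 2) μ := integrable_cont hKc hh.supp (hgc.pow 2)
    have h3 : ∫ x, (f x ^ 2 * Real.log (f x ^ 2) - f x ^ 2 * Real.log t - f x ^ 2 + t) ∂μ ≤
        ∫ x, (15 * g x ^ 2 + 3 * G + 4 * Λ * g x ^ 2) ∂μ := by
      refine integral_mono_ae ?_ ?_ h2
      · exact ((hFl.sub (hFi.mul_const _)).sub hFi).add (integrable_const _)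
      · exact ((hgi.const_mul _).add (integrable_const _)).add (hgi.const_mul _)
    have h4 : ∫ x, (15 * g x ^ 2 + 3 * G + 4 * Λ * g x ^ 2) ∂μ = 18 * G + 4 * (G * Λ) := by
      have e1 : ∫ x, (15 * g x ^ 2 + 3 * G + 4 * Λ * g x ^ 2) ∂μ =
          (∫ x, (15 * g x ^ 2 + 3 * G) ∂μ) + ∫ x, 4 * Λ * g x ^ 2 ∂μ :=
        integral_add ((hgi.const_mul _).add (integrable_const _)) (hgi.const_mul _)
      have e2 : ∫ x, (15 * g x ^ 2 + 3 * G) ∂μ = (∫ x, 15 * g x ^ 2 ∂μ) + ∫ _, 3 * G ∂μ :=
        integral_add (hgi.const_mul _) (integrable_const _)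
      have e3 : ∫ x, 15 * g x ^ 2 ∂μ = 15 * G := integral_const_mul _ _
      have e4 : ∫ x, 4 * Λ * g x ^ 2 ∂μ = 4 * Λ * G := integral_const_mul _ _
      have e5 : ∫ _, 3 * G ∂μ = 3 * G := by simp
      rw [e1, e2, e3, e4, e5]; ring
    have h5 := glog (S := S) hGpos hh.Hpos hDpos hGH
    have hGH' : 18 * G ≤ 18 * (H * D) := by linarith
    calc ent μ (fun x => f x ^ 2) ≤ 18 * G + 4 * (G * Λ) := h1.trans (h3.trans_eq h4)
      _ ≤ 18 * (H * D) + 4 * (H * D * (1 + Real.log (max 1 (S / H)))) := by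
          gcongr
      _ = _ := by ring

end Pool.Agent.R972.LSI
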